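import Pool.Agent.Y911.AB.Main

/-!
# The exact size of the exceptional set of Oesterlé's inequality close to the threshold

For all `M > 1/3` close to `1/3` the number of the abc triples of all heights with `rad (abc) ≤ X`
which violate `c < rad (abc) ^ M` is `X ^ (1 - M + o(1))`.
-/

set_option autoImplicit false

namespace Pool.Agent.Results.MP_2ec8a3_nt.ExceptionExponent

open Filter Topology

/-- the product of the primes dividing `n` -/
def radical (n : ℕ) : ℕ := ∏ p ∈ n.primeFactors, p

/-- the radical of `abc` for the triple `(a, b, a + b)` written `(a, b)` -/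
def rad3 (p : ℕ × ℕ) : ℕ := radical (p.1 * p.2 * (p.1 + p.2))

/-- the exceptions to Oesterlé's inequality with the exponent `M`: the abc triples `(a, b, a + b)`,
written `(a, b)`, `a` and `b` coprime, `1 ≤ a ≤ b`, of radical at most `X` and with
`c = a + b ≥ rad (abc) ^ M`; there is no other condition on the size of `c` -/
def exceptions (M X : ℝ) : Set (ℕ × ℕ) :=
  {p | (0 < p.1 ∧ p.1 ≤ p.2 ∧ Nat.Coprime p.1 p.2 ∧ (rad3 p : ℝ) ≤ X) ∧
    (rad3 p : ℝ) ^ M ≤ ((p.1 + p.2 : ℕ) : ℝ)}

/-- **The number of exceptions is `X ^ (1 - M + o(1))`** for every `M > 1/3` close to `1/3`. -/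
theorem result : (∀ M X : ℝ, (exceptions M X).Finite) ∧
    ∃ M₀ : ℝ, 1 / 3 < M₀ ∧ ∀ M : ℝ, 1 / 3 < M → M ≤ M₀ →
      Tendsto (fun X : ℝ => Real.log ((exceptions M X).ncard : ℝ) / Real.log X) atTop
        (𝓝 (1 - M)) :=
  ⟨fun _ X => (Pool.Agent.Y911.AB.triples_finite' X).subset fun _ hp => hp.1,
    Pool.Agent.Y911.AB.main⟩

end Pool.Agent.Results.MP_2ec8a3_nt.ExceptionExponent
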