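import Mathlib
import Pool.Agent.Y913.Zm.Fn
import Pool.Agent.Y913.Sm.AbcP

/-!
# abc triples of high quality whose members are products of few powers: all heights

For all `N` and `ε > 0` there is `K` such that for every `X` there are at most `X ^ ε` abc triples
`a + b = c` with `c ≥ X ^ K` in which each of `a`, `b`, `c` is a product of powers (with arbitrary
exponents) of `N` positive integers `≤ X`. There is no upper bound on `c`. In particular this holds
for the abc triples with at most `N` primes dividing `a b c` and `rad (a b c) ≤ X`, and for the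
triples with `rad (a b c) ≤ X` in which at most `N` different exponents occur in the factorisations
of `a`, `b` and `c`.
-/

set_option autoImplicit false

namespace Pool.Agent.Results.MP_2ec8a3_nt.FewPowersAllHeights

/-- `m` is a product of powers of `N` positive integers `≤ X`; the exponents are arbitrary -/
def PowerProduct (N X m : ℕ) : Prop :=
  ∃ x e : Fin N → ℕ, (∀ j, 1 ≤ x j ∧ x j ≤ X) ∧ m = ∏ j, x j ^ e j

/-- the abc triples `(a, b, a + b)`, written `(a, b)`, with `a`, `b`, `c = a + b` products of powers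
of `N` positive integers `≤ X` and `X ^ K ≤ c` -/
def Triples (N X K : ℕ) : Set (ℕ × ℕ) :=
  {t | 0 < t.1 ∧ 0 < t.2 ∧ Nat.Coprime t.1 t.2 ∧ PowerProduct N X t.1 ∧ PowerProduct N X t.2 ∧
    PowerProduct N X (t.1 + t.2) ∧ X ^ K ≤ t.1 + t.2}

open Filter Pool.Agent.Y913 Pool.Agent.Y913.Nb

lemma pp_nb {N X m : ℕ} (h : PowerProduct N X m) : NB N (X : ℝ) m := by
  obtain ⟨x, e, hx, hm⟩ := h
  exact ⟨x, e, fun i => ⟨(hx i).1, by exact_mod_cast (hx i).2⟩, hm⟩

/-- For all `N` and `ε > 0` there is `K` such that `Triples N X K` has at most `X ^ ε` elements for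
every `X`. -/
theorem result (N : ℕ) (ε : ℝ) (hε : 0 < ε) : ∃ K : ℕ, ∀ X : ℕ,
    (Triples N X K).Finite ∧ ((Triples N X K).ncard : ℝ) ≤ (X : ℝ) ^ ε := by
  classical
  obtain ⟨K1, C, hK1, hC, h⟩ := Zm.nt_count N (ε / 2) (by positivity)
  obtain ⟨H, hH⟩ := Zm.nb_height N
  obtain ⟨x0, hx0⟩ := eventually_atTop.mp
    ((tendsto_rpow_atTop (by positivity : 0 < ε / 2)).eventually_ge_atTop C)
  obtain ⟨X0, hX0⟩ := exists_nat_ge x0
  obtain ⟨K2, hK2⟩ := pow_unbounded_of_one_lt (Real.exp ((X0 : ℝ) ^ H)) (one_lt_two : (1 : ℝ) < 2)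
  refine ⟨max ⌈K1⌉₊ K2, ?_⟩
  intro X
  rcases Nat.lt_or_ge X 2 with hX2 | hX2
  · have hemp : Triples N X (max ⌈K1⌉₊ K2) = ∅ := by
      apply Set.eq_empty_of_forall_notMem
      rintro t ⟨h1, h2, h3, h4, h5, h6, h7⟩
      have hXr : (X : ℝ) < 2 := by exact_mod_cast hX2
      have e1 := nb_lt_two hXr (pp_nb h4)
      have e2 := nb_lt_two hXr (pp_nb h5)
      have e3 := nb_lt_two hXr (pp_nb h6)
      omega
    rw [hemp]
    refine ⟨Set.finite_empty, ?_⟩
    rw [Set.ncard_empty, Nat.cast_zero]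
    positivity
  have hX2r : (2 : ℝ) ≤ (X : ℝ) := by exact_mod_cast hX2
  rcases Nat.lt_or_ge X X0 with hX | hX
  · have hemp : Triples N X (max ⌈K1⌉₊ K2) = ∅ := by
      apply Set.eq_empty_of_forall_notMem
      rintro t ⟨h1, h2, h3, h4, h5, h6, h7⟩
      have h8 := hH X hX2r t.1 t.2 h1 h2 h3 (pp_nb h4) (pp_nb h5) (pp_nb h6)
      have hpos : (0 : ℝ) < ((t.1 + t.2 : ℕ) : ℝ) := by exact_mod_cast (by omega : 0 < t.1 + t.2)
      have h9 : ((t.1 + t.2 : ℕ) : ℝ) ≤ Real.exp ((X0 : ℝ) ^ H) := by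
        rw [← Real.log_le_iff_le_exp hpos]
        refine h8.trans ?_
        apply pow_le_pow_left₀ (by positivity)
        exact_mod_cast hX.le
      have h10 : (2 : ℝ) ^ K2 ≤ ((t.1 + t.2 : ℕ) : ℝ) := by
        have h11 : 2 ^ K2 ≤ X ^ (max ⌈K1⌉₊ K2) :=
          (Nat.pow_le_pow_left hX2 _).trans
            (Nat.pow_le_pow_right (by omega) (le_max_right _ _))
        exact_mod_cast h11.trans h7
      linarith
    rw [hemp]
    refine ⟨Set.finite_empty, ?_⟩
    rw [Set.ncard_empty, Nat.cast_zero]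
    positivity
  · apply Sm.finite_of_bound
    intro Q hQ
    have hX1 : (1 : ℝ) ≤ (X : ℝ) := by linarith
    have hX0' : (0 : ℝ) < (X : ℝ) := by linarith
    have h5 := h X hX1 Q (by
      intro q hq
      obtain ⟨g1, g2, g3, g4, g5, g6, g7⟩ := hQ q hq
      refine ⟨g1, g2, g3, pp_nb g4, pp_nb g5, pp_nb g6, ?_⟩
      have g8 : (X : ℝ) ^ K1 ≤ (X : ℝ) ^ (max ⌈K1⌉₊ K2 : ℕ) := by
        rw [← Real.rpow_natCast]
        apply Real.rpow_le_rpow_of_exponent_le hX1
        refine (Nat.le_ceil K1).trans ?_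
        exact_mod_cast le_max_left _ _
      refine g8.trans ?_
      exact_mod_cast g7)
    have h6 : C ≤ (X : ℝ) ^ (ε / 2) := hx0 X (hX0.trans (by exact_mod_cast hX))
    calc (Q.card : ℝ) ≤ C * (X : ℝ) ^ (ε / 2) := h5
      _ ≤ (X : ℝ) ^ (ε / 2) * (X : ℝ) ^ (ε / 2) := by gcongr
      _ = (X : ℝ) ^ ε := by
          rw [← Real.rpow_add hX0']
          congr 1
          ring

end Pool.Agent.Results.MP_2ec8a3_nt.FewPowersAllHeights
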