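import Pool.Agent.Y911.AA.Main

/-!
# Oesterlé's inequality for almost all abc triples, of all heights

For every `M > 1/3` all but `C X ^ (2/3 - ν)` of the `∼ κ X ^ (2/3)` abc triples with
`rad (abc) ≤ X` satisfy `c < rad (abc) ^ M`; there is no restriction on the size of `c`, and no
exceptional family is left out. For `M ≤ 1/3` no triple satisfies it.

The large triples (`c > X ^ K`) are treated by linear forms in two `p`-adic logarithms in the
following way. If all primes of `abc` are at most `X ^ θ`, the exponents of most primes are nearly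
equal (to `E`, say), so that `abc` is an `E`-th power up to a small factor, and the members of a
triple with a given divisor `D ^ E` of `a`, `D` of size `X ^ (1/10)`, are determined by `b` and `c`
modulo `D`. If not, simultaneous approximation of the exponents shows that `c / a` is an `E`-th
power of a rational number with few prime factors, up to a small factor, modulo a high power of a
prime `p` dividing `b`; products of many such relations and the sunflower lemma bound their number
for given `p` by `p ^ (1/4)`. The remaining triples are those of the starting library's exceptional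
families.
-/

set_option autoImplicit false

namespace Pool.Agent.Results.MP_2ec8a3_nt.OesterleAlmostAll

open Filter Topology

/-- the product of the primes dividing `n` -/
def radical (n : ℕ) : ℕ := ∏ p ∈ n.primeFactors, p

/-- the radical of `abc` for the triple `(a, b, a + b)` written `(a, b)` -/
def rad3 (p : ℕ × ℕ) : ℕ := radical (p.1 * p.2 * (p.1 + p.2))

/-- all abc triples `(a, b, a + b)`, written `(a, b)`, of radical at most `X`: `a` and `b` are
coprime, `1 ≤ a ≤ b`; there is no condition on the size of `c = a + b` -/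
def triples (X : ℝ) : Set (ℕ × ℕ) :=
  {p | 0 < p.1 ∧ p.1 ≤ p.2 ∧ Nat.Coprime p.1 p.2 ∧ (rad3 p : ℝ) ≤ X}

/-- those among them with `c ≥ rad (abc) ^ M`, the exceptions to Oesterlé's inequality -/
def exceptions (M X : ℝ) : Set (ℕ × ℕ) :=
  {p | p ∈ triples X ∧ (rad3 p : ℝ) ^ M ≤ ((p.1 + p.2 : ℕ) : ℝ)}

/-- **Oesterlé's inequality holds for almost all triples exactly for the exponents above `1/3`.**
(1) The number of all abc triples with `rad (abc) ≤ X`, of whatever height, is finite and asymptotic
to `κ X ^ (2/3)`, where `κ > 0`. (2) For every `M > 1/3` at most `C X ^ (2/3 - ν)` of them have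
`c ≥ rad (abc) ^ M`. (3) For `M ≤ 1/3` all of them do. -/
theorem result :
    (∀ X : ℝ, (triples X).Finite) ∧
    (∃ κ : ℝ, 0 < κ ∧
      Tendsto (fun X : ℝ => ((triples X).ncard : ℝ) / X ^ ((2 : ℝ) / 3)) atTop (𝓝 κ)) ∧
    (∀ M : ℝ, 1 / 3 < M → ∃ ν C : ℝ, 0 < ν ∧ 0 < C ∧ ∀ X : ℝ, 1 ≤ X →
      ((exceptions M X).ncard : ℝ) ≤ C * X ^ (2 / 3 - ν)) ∧
    (∀ M : ℝ, M ≤ 1 / 3 → ∀ X : ℝ, exceptions M X = triples X) := by
  obtain ⟨κ, hκ, h1, h2⟩ := Pool.Agent.Y911.AA.main
  refine ⟨Pool.Agent.Y911.AA.triples_finite', ⟨κ, hκ, h1⟩, h2, fun M hM X => ?_⟩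
  ext p
  refine ⟨fun h => h.1, fun h => ⟨h, ?_⟩⟩
  have h3 : rad3 p < (p.1 + p.2) ^ 3 := Pool.Agent.Y911.AA.rad3_lt (X := X) h
  have h4 : (1 : ℝ) ≤ rad3 p := by
    exact_mod_cast Nat.succ_le_of_lt (Pool.Agent.Y911.AA.rad_pos (p.1 * p.2 * (p.1 + p.2)))
  calc (rad3 p : ℝ) ^ M ≤ (rad3 p : ℝ) ^ ((1 : ℝ) / 3) :=
        Real.rpow_le_rpow_of_exponent_le h4 hM
    _ ≤ (((p.1 + p.2 : ℕ) : ℝ) ^ 3) ^ ((1 : ℝ) / 3) := by
        refine Real.rpow_le_rpow (by positivity) ?_ (by norm_num)
        exact_mod_cast h3.le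
    _ = ((p.1 + p.2 : ℕ) : ℝ) := by
        rw [← Real.rpow_natCast, ← Real.rpow_mul (Nat.cast_nonneg _)]
        norm_num

end Pool.Agent.Results.MP_2ec8a3_nt.OesterleAlmostAll
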