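import Pool.Agent.Y911.RD.Main

/-!
# The radicals of the abc triples

The set of the integers `R` which are radicals of abc triples (of whatever height) has the same
asymptotic count `κ X ^ (2/3)` as the set of all triples ordered by radical; and for every
`M > 1/3` all but `C X ^ (2/3 - ν)` of these `R ≤ X` belong to exactly one triple, and this triple
satisfies Oesterlé's inequality `c < R ^ M`.

The new ingredient, beside the almost-all theorem `OesterleAlmostAll`, is a bound for the number of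
pairs of triples of moderate height with the same radical. Such a pair gives a solution of
`ω α β (α + β) = ω' α' β' (α' + β')` with small `ω, ω'` and with `g = gcd (α, α')` large; with
`α = r g`, `α' = s g`, `β = h x`, `β' = h y`, `h = gcd (β, β')`, there is an integer `u` such that
`ω r ^ 2 x - ω' s ^ 2 y = h u` and `ω' s y ^ 2 - ω r x ^ 2 = g u`, and it divides
`ω ω' r s (ω r ^ 3 - ω' s ^ 3)`.
-/

set_option autoImplicit false

namespace Pool.Agent.Results.MP_2ec8a3_nt.RadicalSet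

open Filter Topology

/-- the product of the primes dividing `n` -/
def radical (n : ℕ) : ℕ := ∏ p ∈ n.primeFactors, p

/-- the abc triples `(a, b, a + b)`, written `(a, b)`: `a` and `b` are coprime and `1 ≤ a ≤ b` -/
def IsTriple (t : ℕ × ℕ) : Prop := 0 < t.1 ∧ t.1 ≤ t.2 ∧ Nat.Coprime t.1 t.2

/-- the radical of `abc` for the triple `(a, b, a + b)` written `(a, b)` -/
def rad3 (t : ℕ × ℕ) : ℕ := radical (t.1 * t.2 * (t.1 + t.2))

/-- the abc triples of radical at most `X`, of whatever height -/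
def triples (X : ℝ) : Set (ℕ × ℕ) := {t | IsTriple t ∧ (rad3 t : ℝ) ≤ X}

/-- the positive integers `R ≤ X` which are the radical of some abc triple, of whatever height -/
def radicals (X : ℝ) : Set ℕ := {R | (R : ℝ) ≤ X ∧ ∃ t, IsTriple t ∧ rad3 t = R}

/-- `R` is the radical of exactly one abc triple `(a, b, c)`, and `c < R ^ M` for this triple -/
def Regular (M : ℝ) (R : ℕ) : Prop :=
  ∃ t, IsTriple t ∧ rad3 t = R ∧ (∀ t', IsTriple t' → rad3 t' = R → t' = t) ∧
    ((t.1 + t.2 : ℕ) : ℝ) < (R : ℝ) ^ M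

/-- **Almost every radical of an abc triple belongs to a single triple, for which Oesterlé's
inequality is true.** (1) There is `κ > 0` such that the number of abc triples of radical at most
`X` and the number of `R ≤ X` that are radicals of abc triples are both asymptotic to
`κ X ^ (2/3)`. (2) For every `M > 1/3` there are `ν, C > 0` such that, for all `X ≥ 1`, all but
`C X ^ (2/3 - ν)` of these `R`, and all but `C X ^ (2/3 - ν)` of the radicals of these triples
(counted by triples), are regular. -/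
theorem result :
    (∀ X : ℝ, (triples X).Finite ∧ (radicals X).Finite) ∧
    (∃ κ : ℝ, 0 < κ ∧
      Tendsto (fun X : ℝ => ((triples X).ncard : ℝ) / X ^ ((2 : ℝ) / 3)) atTop (𝓝 κ) ∧
      Tendsto (fun X : ℝ => ((radicals X).ncard : ℝ) / X ^ ((2 : ℝ) / 3)) atTop (𝓝 κ)) ∧
    (∀ M : ℝ, 1 / 3 < M → ∃ ν C : ℝ, 0 < ν ∧ 0 < C ∧ ∀ X : ℝ, 1 ≤ X →
      ({R | R ∈ radicals X ∧ ¬ Regular M R}.ncard : ℝ) ≤ C * X ^ (2 / 3 - ν) ∧
      ({t | t ∈ triples X ∧ ¬ Regular M (rad3 t)}.ncard : ℝ) ≤ C * X ^ (2 / 3 - ν)) := by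
  have eT : ∀ X : ℝ,
      triples X = Pool.Agent.Results.MP_1ea25c_nt.AlmostAllTriples.triples X := by
    intro X
    ext t
    exact ⟨fun h => ⟨h.1.1, h.1.2.1, h.1.2.2, h.2⟩, fun h => ⟨⟨h.1, h.2.1, h.2.2.1⟩, h.2.2.2⟩⟩
  have eR : ∀ X : ℝ, radicals X = Pool.Agent.Y911.RD.radicals X := by
    intro X
    ext R
    constructor
    · rintro ⟨h1, t, h2, rfl⟩
      refine ⟨t, ?_, rfl⟩
      rw [← eT]
      exact ⟨h2, h1⟩
    · rintro ⟨t, h1, rfl⟩
      rw [← eT] at h1
      exact ⟨h1.2, t, h1.1, rfl⟩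
  have fT : ∀ X : ℝ, (triples X).Finite := fun X => by
    rw [eT]; exact Pool.Agent.Y911.AA.triples_finite' X
  have fR : ∀ X : ℝ, (radicals X).Finite := fun X => by
    rw [eR]; exact Pool.Agent.Y911.RD.radicals_finite X
  obtain ⟨κ, hκ, h1, h2⟩ := Pool.Agent.Y911.AA.main
  refine ⟨fun X => ⟨fT X, fR X⟩, ⟨κ, hκ, ?_, ?_⟩, fun M hM => ?_⟩
  · simp only [eT]
    exact h1
  · simp only [eR]
    exact Pool.Agent.Y911.RD.radicals_tendsto h1
  · obtain ⟨ν1, C1, hν1, hC1, h3⟩ := h2 M hM
    obtain ⟨ν2, C2, hν2, -, hC2, h4⟩ := Pool.Agent.Y911.RD.shared_le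
    refine ⟨min ν1 ν2, C1 + C2, lt_min hν1 hν2, by positivity, fun X hX => ?_⟩
    have hT : ({t | t ∈ triples X ∧ ¬ Regular M (rad3 t)}.ncard : ℝ) ≤
        (C1 + C2) * X ^ (2 / 3 - min ν1 ν2) := by
      have hsub : {t | t ∈ triples X ∧ ¬ Regular M (rad3 t)} ⊆
          Pool.Agent.Y911.AA.viol M X ∪ Pool.Agent.Y911.RD.shared X := by
        rintro t ⟨ht, hr⟩
        have ht' := ht
        rw [eT] at ht'
        by_cases hv : (rad3 t : ℝ) ^ M ≤ ((t.1 + t.2 : ℕ) : ℝ)
        · exact Or.inl ⟨ht', hv⟩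
        · refine Or.inr ⟨ht', ?_⟩
          by_contra hcon
          refine hr ⟨t, ht.1, rfl, fun t' h5 h6 => ?_, not_le.1 hv⟩
          by_contra hne
          refine hcon ⟨t', ?_, hne, h6⟩
          rw [← eT]
          refine ⟨h5, ?_⟩
          rw [h6]
          exact ht.2
      have hfin : (Pool.Agent.Y911.AA.viol M X ∪ Pool.Agent.Y911.RD.shared X).Finite :=
        ((Pool.Agent.Y911.AA.triples_finite' X).subset fun p hp => hp.1).union
          ((Pool.Agent.Y911.AA.triples_finite' X).subset fun p hp => hp.1)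
      have h5 := (Set.ncard_le_ncard hsub hfin).trans (Set.ncard_union_le _ _)
      have k1 : X ^ (2 / 3 - ν1) ≤ X ^ (2 / 3 - min ν1 ν2) :=
        Real.rpow_le_rpow_of_exponent_le hX (by linarith [min_le_left ν1 ν2])
      have k2 : X ^ (2 / 3 - ν2) ≤ X ^ (2 / 3 - min ν1 ν2) :=
        Real.rpow_le_rpow_of_exponent_le hX (by linarith [min_le_right ν1 ν2])
      have k3 := (h3 X hX).trans (mul_le_mul_of_nonneg_left k1 hC1.le)
      have k4 := (h4 X hX).trans (mul_le_mul_of_nonneg_left k2 hC2.le)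
      have k5 : ({t | t ∈ triples X ∧ ¬ Regular M (rad3 t)}.ncard : ℝ) ≤
          ((Pool.Agent.Y911.AA.viol M X).ncard : ℝ) +
            ((Pool.Agent.Y911.RD.shared X).ncard : ℝ) := by exact_mod_cast h5
      linarith
    refine ⟨le_trans ?_ hT, hT⟩
    have hsub : {R | R ∈ radicals X ∧ ¬ Regular M R} ⊆
        rad3 '' {t | t ∈ triples X ∧ ¬ Regular M (rad3 t)} := by
      rintro R ⟨⟨h5, t, h6, rfl⟩, h7⟩
      exact ⟨t, ⟨⟨h6, h5⟩, h7⟩, rfl⟩
    have hfin : {t | t ∈ triples X ∧ ¬ Regular M (rad3 t)}.Finite :=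
      (fT X).subset fun t ht => ht.1
    exact_mod_cast (Set.ncard_le_ncard hsub (hfin.image _)).trans (Set.ncard_image_le hfin)

end Pool.Agent.Results.MP_2ec8a3_nt.RadicalSet
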